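import Mathlib
import Pool.Agent.Lib.MP_f35a22_co.Helly

set_option autoImplicit false

namespace Pool.Agent.Results.MP_f35a22_co.SphereFamilies

/-- **Maehara's conjecture for spheres of equal radius in three-dimensional space.** Let `E` be a
three-dimensional real inner product space, `r > 0`, and `F` a (finite or infinite) family of
spheres of radius `r` in `E` with at least five members. If every four distinct members of `F`
have a common point, then all members of `F` have a common point. -/
theorem result :
    ∀ (E : Type) [NormedAddCommGroup E] [InnerProductSpace ℝ E], Module.finrank ℝ E = 3 →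
      ∀ (r : ℝ), 0 < r → ∀ F : Set (Set E),
        (∀ S ∈ F, ∃ c : E, S = {x : E | ‖x - c‖ = r}) →
        (∃ f : Fin 5 → Set E, Function.Injective f ∧ ∀ i, f i ∈ F) →
        (∀ f : Fin 4 → Set E, Function.Injective f → (∀ i, f i ∈ F) → ∃ x : E, ∀ i, x ∈ f i) →
        ∃ x : E, ∀ S ∈ F, x ∈ S := by
  intro E _ _ hE r hr F hF h5 h4
  haveI : FiniteDimensional ℝ E := Module.finite_of_finrank_pos (by rw [hE]; norm_num)
  let e : E ≃ₗᵢ[ℝ] EuclideanSpace ℝ (Fin 3) :=
    (stdOrthonormalBasis ℝ E).reindex (finCongr hE) |>.repr
  -- the map `x ↦ e x / r` turns spheres of radius `r` into unit spheres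
  let g : E → EuclideanSpace ℝ (Fin 3) := fun x => r⁻¹ • e x
  have hg : ∀ x y : E, dist (g x) (g y) = r⁻¹ * ‖x - y‖ := by
    intro x y
    simp only [g]
    rw [dist_eq_norm, ← smul_sub, norm_smul, ← map_sub, e.norm_map, Real.norm_of_nonneg
      (by positivity)]
  have hg1 : ∀ x y : E, dist (g x) (g y) = 1 ↔ ‖x - y‖ = r := by
    intro x y
    rw [hg]
    constructor
    · intro h
      field_simp at h
      exact h
    · intro h
      rw [h]
      field_simp
  have hgs : Function.Surjective g := by
    intro y
    refine ⟨e.symm (r • y), ?_⟩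
    simp only [g, e.apply_symm_apply]
    rw [smul_smul, inv_mul_cancel₀ hr.ne', one_smul]
  have hgi : Function.Injective g := by
    intro x y hxy
    have h1 : dist (g x) (g y) = 0 := by rw [hxy, dist_self]
    rw [hg] at h1
    rcases mul_eq_zero.mp h1 with h2 | h2
    · exact absurd h2 (inv_ne_zero hr.ne')
    · exact sub_eq_zero.mp (norm_eq_zero.mp h2)
  -- the set of all centres
  let sph : E → Set E := fun c => {x : E | ‖x - c‖ = r}
  have hmem : ∀ c x : E, x ∈ sph c ↔ ‖x - c‖ = r := fun c x => Iff.rfl
  let C : Set (EuclideanSpace ℝ (Fin 3)) := {z | ∃ c : E, sph c ∈ F ∧ g c = z}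
  have key : ∃ p : EuclideanSpace ℝ (Fin 3), ∀ c ∈ C, p ∈ Metric.sphere c 1 := by
    apply Pool.Agent.Lib.MP_f35a22_co.Helly.helly
    · obtain ⟨f, hfi, hfF⟩ := h5
      choose c hc using fun i => hF (f i) (hfF i)
      have hinj : Function.Injective (fun i => g (c i)) := by
        intro i j hij
        apply hfi
        have := hgi hij
        rw [hc i, hc j, this]
      have hsub : Set.range (fun i => g (c i)) ⊆ C := by
        rintro _ ⟨i, rfl⟩
        refine ⟨c i, ?_, rfl⟩
        have : sph (c i) = f i := (hc i).symm
        rw [this]
        exact hfF i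
      refine le_trans ?_ (Set.encard_le_encard hsub)
      rw [← Set.image_univ, hinj.encard_image, Set.encard_univ]
      simp
    · intro T hT hT4
      have hfin : T.Finite := Set.finite_of_encard_eq_coe (k := 4) (by rw [hT4]; rfl)
      have hcard : T.ncard = 4 := by
        rw [Set.ncard, hT4]; rfl
      obtain ⟨t, ht⟩ := hfin.exists_finset_coe
      have htc : t.card = 4 := by
        rw [← Set.ncard_coe_finset, ht]; exact hcard
      let w : Fin 4 ≃ t := (t.equivFinOfCardEq htc).symm
      have hw : ∀ i, ((w i : EuclideanSpace ℝ (Fin 3))) ∈ C := by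
        intro i
        apply hT
        rw [← ht]
        exact (w i).2
      choose c hcF hcw using hw
      have hne : ∀ i j : Fin 4, sph (c i) = sph (c j) → i = j := by
        intro i j hij
        have hcc : c i = c j := by
          by_contra hcc
          have hd : c j - c i ≠ 0 := sub_ne_zero.mpr (Ne.symm hcc)
          -- take the point of the first sphere farthest from the second centre
          have h1 : c i - (r / ‖c j - c i‖) • (c j - c i) ∈ sph (c i) := by
            rw [hmem]
            have : c i - (r / ‖c j - c i‖) • (c j - c i) - c i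
                = -((r / ‖c j - c i‖) • (c j - c i)) := by abel
            rw [this, norm_neg, norm_smul, Real.norm_of_nonneg (by positivity)]
            have := norm_pos_iff.mpr hd
            field_simp
          rw [hij, hmem] at h1
          have h2 : c i - (r / ‖c j - c i‖) • (c j - c i) - c j
              = -((1 + r / ‖c j - c i‖) • (c j - c i)) := by
            rw [add_smul, one_smul]; abel
          rw [h2, norm_neg, norm_smul, Real.norm_of_nonneg (by positivity)] at h1
          have h3 := norm_pos_iff.mpr hd
          have h4 : (1 + r / ‖c j - c i‖) * ‖c j - c i‖ = ‖c j - c i‖ + r := by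
            field_simp
          rw [h4] at h1
          linarith
        have : w i = w j := by
          apply Subtype.ext
          rw [← hcw i, ← hcw j, hcc]
        exact w.injective this
      obtain ⟨x, hx⟩ := h4 (fun i => sph (c i)) (fun i j h => hne i j h) hcF
      refine ⟨g x, ?_⟩
      intro z hz
      rw [← ht] at hz
      have hz' : z = w (w.symm ⟨z, hz⟩) := by simp
      rw [hz', Metric.mem_sphere, ← hcw, hg1]
      exact hx _
  obtain ⟨p, hp⟩ := key
  obtain ⟨x, rfl⟩ := hgs p
  refine ⟨x, ?_⟩
  intro S hS
  obtain ⟨c, rfl⟩ := hF S hS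
  have := hp (g c) ⟨c, hS, rfl⟩
  rw [Metric.mem_sphere, hg1] at this
  exact this

end Pool.Agent.Results.MP_f35a22_co.SphereFamilies
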